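import Pool.Agent.helper32.NN.All

/-!
# Project FR (MP_3938c6_al): elements with finite-dimensional inner products

In a counterexample `A` and for every proper ideal `T`, the ideal generated by all elements `y` with
`dim (y A y + T) / T` finite is proper.
-/

set_option autoImplicit false

open Submodule

noncomputable section

namespace Pool.Agent.FR

open Pool.Agent.NN

universe u v

/-- finite dimension modulo `T`, with generators inside `P`. -/
theorem FR_cod {K : Type u} {U : Type v} [Field K] [AddCommGroup U] [Module K U]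
    (P T F : Submodule K U) (hF : F.FG) (h : P ≤ F ⊔ T) :
    ∃ G : Submodule K U, G ≤ P ∧ G.FG ∧ P ≤ G ⊔ T := by
  have h1 : P.map T.mkQ ≤ F.map T.mkQ := by
    refine (Submodule.map_mono h).trans ?_
    rw [Submodule.map_sup]
    refine sup_le le_rfl ?_
    rw [Submodule.mkQ_map_self]
    exact bot_le
  have h2 : (P.map T.mkQ).FG := by
    have h3 : (F.map T.mkQ).FG := hF.map _
    have : FiniteDimensional K (F.map T.mkQ) := Module.Finite.iff_fg.2 h3
    have : FiniteDimensional K (P.map T.mkQ) := Submodule.finiteDimensional_of_le h1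
    exact Module.Finite.iff_fg.1 this
  obtain ⟨t, ht⟩ := h2
  have h3 : ∀ r : t, ∃ x ∈ P, T.mkQ x = r := by
    intro r
    have h4 : (r : U ⧸ T) ∈ P.map T.mkQ := by
      rw [← ht]
      exact subset_span r.2
    exact Submodule.mem_map.1 h4
  choose g hg1 hg2 using h3
  have hP : span K (Set.range g) ≤ P := by
    rw [span_le]
    rintro _ ⟨r, rfl⟩
    exact hg1 r
  refine ⟨span K (Set.range g), hP, fg_span (Set.finite_range g), ?_⟩
  intro x hx
  have h4 : T.mkQ x ∈ (span K (Set.range g)).map T.mkQ := by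
    have h5 : T.mkQ x ∈ P.map T.mkQ := mem_map_of_mem hx
    rw [← ht] at h5
    have h6 : span K (t : Set (U ⧸ T)) ≤ (span K (Set.range g)).map T.mkQ := by
      rw [span_le]
      intro r hr
      exact ⟨g ⟨r, hr⟩, subset_span ⟨_, rfl⟩, hg2 ⟨r, hr⟩⟩
    exact h6 h5
  obtain ⟨f, hf, hfx⟩ := h4
  rw [Submodule.mem_sup]
  refine ⟨f, hf, x - f, ?_, by abel⟩
  have h5 : T.mkQ (x - f) = 0 := by rw [map_sub, hfx, sub_self]
  rw [Submodule.mkQ_apply] at h5
  exact (Submodule.Quotient.mk_eq_zero T).1 h5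

/-- an inner subspace which is finite-dimensional modulo `T`. -/
theorem FR_Y {K : Type u} {U : Type v} [Field K] [Ring U] [Algebra K U] (A T : Submodule K U)
    (hAA : A * A ≤ A) (y : U) (hy : y ∈ A) (F : Submodule K U) (hF : F.FG)
    (h : ∀ a ∈ A, y * a * y ∈ F ⊔ T) :
    ∃ Y : Submodule K U, y ∈ Y ∧ Y ≤ A ∧ Y.FG ∧ Y * ((1 ⊔ A) * Y) ≤ Y ⊔ T := by
  set V : Submodule K U := 1 ⊔ A with hV
  set S : Submodule K U := span K {y} with hS
  have hSA : S ≤ A := by
    rw [hS, span_singleton_le_iff_mem]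
    exact hy
  have hAV : A ≤ V := le_sup_right
  have h1V : (1 : Submodule K U) ≤ V := le_sup_left
  have hVA : V * A ≤ A := by
    rw [hV, Submodule.sup_mul, one_mul]
    exact sup_le le_rfl hAA
  have hAV' : A * V ≤ A := by
    rw [hV, Submodule.mul_sup, mul_one]
    exact sup_le le_rfl hAA
  have hVV : V * V ≤ V := by
    conv_lhs => rw [hV]
    rw [Submodule.sup_mul, one_mul]
    exact sup_le le_rfl (hAV'.trans hAV)
  have hVS : V * S ≤ V := (mul_le_mul' le_rfl (hSA.trans hAV)).trans hVV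
  -- `P = y V y`
  have hP : S * (V * S) ≤ (F ⊔ span K {y * y}) ⊔ T := by
    rw [Submodule.mul_le]
    intro m hm n hn
    obtain ⟨c, rfl⟩ := Submodule.mem_span_singleton.1 hm
    rw [smul_mul_assoc]
    refine Submodule.smul_mem _ _ ?_
    have h1 : V * S ≤ ((F ⊔ span K {y * y}) ⊔ T).comap (LinearMap.mulLeft K y) := by
      rw [Submodule.mul_le]
      intro a ha b hb
      obtain ⟨d, rfl⟩ := Submodule.mem_span_singleton.1 hb
      rw [mul_smul_comm]
      refine Submodule.smul_mem _ _ ?_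
      rw [Submodule.mem_comap, LinearMap.mulLeft_apply]
      obtain ⟨e, he, a', ha', rfl⟩ := Submodule.mem_sup.1 ha
      obtain ⟨k, rfl⟩ := Submodule.mem_one.1 he
      rw [add_mul, mul_add]
      refine add_mem ?_ ?_
      · rw [← Algebra.smul_def, mul_smul_comm]
        refine Submodule.smul_mem _ _ ?_
        refine (le_sup_left : _ ≤ (F ⊔ span K {y * y}) ⊔ T) ?_
        exact (le_sup_right : _ ≤ F ⊔ span K {y * y}) (Submodule.mem_span_singleton_self _)
      · rw [← mul_assoc]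
        have h2 : F ⊔ T ≤ (F ⊔ span K {y * y}) ⊔ T := sup_le_sup_right le_sup_left T
        exact h2 (h a' ha')
    exact h1 hn
  obtain ⟨G, hG1, hG2, hG3⟩ := FR_cod (S * (V * S)) T (F ⊔ span K {y * y})
    (hF.sup (Submodule.fg_span_singleton _)) hP
  have hPA : S * (V * S) ≤ A :=
    (mul_le_mul' hSA hVS).trans hAV'
  refine ⟨S ⊔ G, ?_, sup_le hSA (hG1.trans hPA), (Submodule.fg_span_singleton _).sup hG2, ?_⟩
  · exact (le_sup_left : S ≤ S ⊔ G) (Submodule.mem_span_singleton_self _)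
  · have e1 : S ⊔ G ≤ S * V := by
      refine sup_le ?_ (hG1.trans (mul_le_mul' le_rfl hVS))
      calc S = S * 1 := (mul_one S).symm
        _ ≤ S * V := mul_le_mul' le_rfl h1V
    have e2 : S ⊔ G ≤ V * S := by
      refine sup_le ?_ (hG1.trans ?_)
      · calc S = 1 * S := (one_mul S).symm
          _ ≤ V * S := mul_le_mul' h1V le_rfl
      · calc S * (V * S) ≤ V * (V * S) := mul_le_mul' (hSA.trans hAV) le_rfl
          _ = (V * V) * S := (mul_assoc _ _ _).symm
          _ ≤ V * S := mul_le_mul' hVV le_rfl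
    calc (S ⊔ G) * (V * (S ⊔ G)) ≤ (S * V) * (V * (V * S)) :=
          mul_le_mul' e1 (mul_le_mul' le_rfl e2)
      _ = S * (((V * V) * V) * S) := by simp only [mul_assoc]
      _ ≤ S * (V * S) :=
          mul_le_mul' le_rfl (mul_le_mul' ((mul_le_mul' hVV le_rfl).trans hVV) le_rfl)
      _ ≤ G ⊔ T := hG3
      _ ≤ (S ⊔ G) ⊔ T := sup_le_sup_right le_sup_right T

/-- the enlarged subspace: one linear step. -/
theorem FR_B {K : Type u} {U : Type v} [Field K] [Ring U] [Algebra K U] (A T Y B : Submodule K U)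
    (hAA : A * A ≤ A) (hT : IsId A T) (hYA : Y ≤ A) (hYF : Y.FG)
    (hYY : Y * ((1 ⊔ A) * Y) ≤ Y ⊔ T) (l : U →ₗ[K] K) (hBA : B ≤ A) (hB : B.FG)
    (hBB : B * B ≤ B ⊔ T) (hlB : ∀ b ∈ B, l b = 0) (s : U) (hs : s ∈ A)
    (hls : ∀ b ∈ (1 ⊔ B) * Y, ∀ b' ∈ 1 ⊔ B, l (b * (s * b')) = 0) :
    ∃ B' : Submodule K U, B ≤ B' ∧ (∀ y ∈ Y, y * s ∈ B') ∧ B' ≤ A ∧ B'.FG ∧
      B' * B' ≤ B' ⊔ T ∧ (∀ b ∈ B', l b = 0) := by
  obtain ⟨hTA, hAT, hTA'⟩ := hT
  set V : Submodule K U := 1 ⊔ B with hV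
  set S : Submodule K U := span K {s} with hS
  have hSA : S ≤ A := by
    rw [hS, span_singleton_le_iff_mem]
    exact hs
  have hVA : V * A ≤ A := by
    rw [hV, Submodule.sup_mul, one_mul]
    exact sup_le le_rfl ((STP_l hBA).trans hAA)
  have hAV : A * V ≤ A := by
    rw [hV, Submodule.mul_sup, mul_one]
    exact sup_le le_rfl ((STP_r hBA).trans hAA)
  have e3 : V * T ≤ T := by
    rw [hV, Submodule.sup_mul, one_mul]
    exact sup_le le_rfl ((STP_l hBA).trans hAT)
  have e4 : T * V ≤ T := by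
    rw [hV, Submodule.mul_sup, mul_one]
    exact sup_le le_rfl ((STP_r hBA).trans hTA')
  have hVY : V * Y ≤ A := (STP_r hYA).trans hVA
  have hSV : S * V ≤ A := (STP_l hSA).trans hAV
  have hXA : (V * Y) * (S * V) ≤ A := (mul_le_mul' hVY hSV).trans hAA
  have b1 : B * V ≤ V ⊔ T := by
    rw [hV, Submodule.mul_sup, mul_one]
    exact sup_le (le_sup_of_le_left le_sup_right) (hBB.trans (sup_le_sup_right le_sup_right T))
  have b2 : V * B ≤ V ⊔ T := by
    rw [hV, Submodule.sup_mul, one_mul]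
    exact sup_le (le_sup_of_le_left le_sup_right) (hBB.trans (sup_le_sup_right le_sup_right T))
  have h1V : (1 : Submodule K U) ≤ V := le_sup_left
  have h1m : (1 : U) ∈ V := h1V (Submodule.one_le.1 le_rfl)
  have h1F : (1 : Submodule K U).FG := by
    rw [Submodule.one_eq_span]
    exact Submodule.fg_span_singleton 1
  have hVF : V.FG := h1F.sup hB
  refine ⟨B ⊔ (V * Y) * (S * V), le_sup_left, ?_, sup_le hBA hXA,
    hB.sup ((hVF.mul hYF).mul ((Submodule.fg_span_singleton s).mul hVF)), ?_, ?_⟩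
  · intro y hy
    have h2 := Submodule.mul_mem_mul (Submodule.mul_mem_mul h1m hy)
      (Submodule.mul_mem_mul (Submodule.mem_span_singleton_self s) h1m)
    rw [one_mul, mul_one] at h2
    exact (le_sup_right : _ ≤ B ⊔ (V * Y) * (S * V)) h2
  · generalize hX : (V * Y) * (S * V) = X at hXA ⊢
    have t1 : T * (Y * (S * V)) ≤ T :=
      (STP_r ((mul_le_mul' hYA hSV).trans hAA)).trans hTA'
    have t2 : ((V * Y) * S) * T ≤ T :=
      (STP_l ((mul_le_mul' hVY hSA).trans hAA)).trans hAT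
    rw [Submodule.sup_mul, Submodule.mul_sup, Submodule.mul_sup]
    refine sup_le (sup_le ?_ ?_) (sup_le ?_ ?_)
    · exact hBB.trans (sup_le_sup_right le_sup_left T)
    · calc B * X = (B * V) * (Y * (S * V)) := by rw [← hX]; simp only [mul_assoc]
        _ ≤ (V ⊔ T) * (Y * (S * V)) := STP_l b1
        _ = X ⊔ T * (Y * (S * V)) := by
            rw [Submodule.sup_mul, ← hX]; simp only [mul_assoc]
        _ ≤ (B ⊔ X) ⊔ T := sup_le (le_sup_of_le_left le_sup_right) (le_sup_of_le_right t1)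
    · calc X * B = ((V * Y) * S) * (V * B) := by rw [← hX]; simp only [mul_assoc]
        _ ≤ ((V * Y) * S) * (V ⊔ T) := STP_r b2
        _ = X ⊔ ((V * Y) * S) * T := by
            rw [Submodule.mul_sup, ← hX]; simp only [mul_assoc]
        _ ≤ (B ⊔ X) ⊔ T := sup_le (le_sup_of_le_left le_sup_right) (le_sup_of_le_right t2)
    · have k1 : (S * V) * V ≤ 1 ⊔ A := ((STP_l hSV).trans hAV).trans le_sup_right
      have t3 : (V * T) * (S * V) ≤ T := (mul_le_mul' e3 hSV).trans hTA'
      calc X * X = V * (Y * (((S * V) * V) * Y)) * (S * V) := by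
            rw [← hX]; simp only [mul_assoc]
        _ ≤ V * (Y * ((1 ⊔ A) * Y)) * (S * V) := STP_l (STP_r (STP_r (STP_l k1)))
        _ ≤ V * (Y ⊔ T) * (S * V) := STP_l (STP_r hYY)
        _ = X ⊔ (V * T) * (S * V) := by
            rw [Submodule.mul_sup, Submodule.sup_mul, hX]
        _ ≤ (B ⊔ X) ⊔ T := sup_le (le_sup_of_le_left le_sup_right) (le_sup_of_le_right t3)
  · have h1 : B ⊔ (V * Y) * (S * V) ≤ LinearMap.ker l := by
      refine sup_le hlB ?_
      rw [Submodule.mul_le]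
      intro b hb y hy
      have h2 : S * V ≤ LinearMap.ker (l ∘ₗ (LinearMap.mulLeft K b)) := by
        rw [Submodule.mul_le]
        intro x hx b' hb'
        obtain ⟨c, rfl⟩ := Submodule.mem_span_singleton.1 hx
        rw [LinearMap.mem_ker, LinearMap.comp_apply, LinearMap.mulLeft_apply, smul_mul_assoc,
          mul_smul_comm, map_smul, hls b hb b' hb', smul_zero]
      exact h2 hy
    intro b hb
    exact h1 hb

/-- the set of elements `y` with `dim (y A y + T) / T` finite. -/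
def FinEl {K : Type u} {U : Type v} [Field K] [Ring U] [Algebra K U] (A T : Submodule K U) : Set U :=
  {y | y ∈ A ∧ ∃ F : Submodule K U, F.FG ∧ ∀ a ∈ A, y * a * y ∈ F ⊔ T}

/-- one step, `T` closed. -/
theorem FR_step {K : Type u} {U : Type v} [Field K] [Ring U] [Algebra K U] (A : Submodule K U)
    (hC : Cex K U A) (T : Submodule K U) (hT : IsId A T)
    (hcl : ∀ x ∈ A, (∀ a ∈ A, x * a ∈ T) → x ∈ T)
    (hgen : A ≤ (A * span K (FinEl A T)) * A) (l : U →ₗ[K] K)
    (B : Submodule K U) (k : ℕ) (hBA : B ≤ A) (hB : B.FG) (hBB : B * B ≤ B ⊔ T)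
    (hlB : ∀ b ∈ B, l b = 0) (hk : ¬ B ^ k * A ≤ T) :
    ∃ B' : Submodule K U, B ≤ B' ∧ B' ≤ A ∧ B'.FG ∧ B' * B' ≤ B' ⊔ T ∧ (∀ b ∈ B', l b = 0) ∧
      ¬ B' ^ (k + 1) * A ≤ T := by
  have hAA : A * A = A := all_PER K U A hC
  obtain ⟨hTA, hAT, hTA'⟩ := id hT
  have hpA : ∀ m : ℕ, B ^ m * A ≤ A := by
    intro m
    induction m with
    | zero => rw [pow_zero, one_mul]
    | succ m ih =>
      rw [pow_succ, mul_assoc]
      exact (STP_r ((STP_l hBA).trans hAA.le)).trans ih
  -- `p ∈ B ^ k`, `p A ⊄ T`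
  obtain ⟨p, hp, a₀, ha₀, hpa₀⟩ : ∃ p ∈ B ^ k, ∃ a ∈ A, p * a ∉ T := by
    by_contra hcon
    push Not at hcon
    exact hk (Submodule.mul_le.2 hcon)
  -- `y ∈ FinEl`, `a`, `b` with `p a y b ∉ T`
  obtain ⟨a, ha, y, hy, b, hb, hpyb⟩ : ∃ a ∈ A, ∃ y ∈ FinEl A T, ∃ b ∈ A, p * (a * y * b) ∉ T := by
    by_contra hcon
    push Not at hcon
    have h1 : (A * span K (FinEl A T)) * A ≤ T.comap (LinearMap.mulLeft K p) := by
      rw [Submodule.mul_le]
      intro m hm n hn
      have h2 : A * span K (FinEl A T) ≤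
          T.comap ((LinearMap.mulLeft K p) ∘ₗ (LinearMap.mulRight K n)) := by
        rw [Submodule.mul_le]
        intro a ha z hz
        have h3 : span K (FinEl A T) ≤
            T.comap ((LinearMap.mulLeft K p) ∘ₗ (LinearMap.mulRight K n) ∘ₗ
              (LinearMap.mulLeft K a)) := by
          rw [span_le]
          intro y hy
          exact hcon a ha y hy n hn
        exact h3 hz
      exact h2 hm
    exact hpa₀ (h1 (hgen ha₀))
  obtain ⟨hyA, F, hF, hyF⟩ := hy
  -- replace `y` by `a y`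
  have hay : a * y ∈ A := hAA.le (Submodule.mul_mem_mul ha hyA)
  obtain ⟨Y, hyY, hYA, hYF, hYY⟩ := FR_Y A T hAA.le (a * y) hay (span K {a} * F)
    ((Submodule.fg_span_singleton a).mul hF) (by
      intro c hc
      have h1 : c * a ∈ A := hAA.le (Submodule.mul_mem_mul hc ha)
      have h2 := hyF _ h1
      have h3 : a * y * c * (a * y) = a * (y * (c * a) * y) := by simp only [mul_assoc]
      rw [h3]
      obtain ⟨f, hf, t, ht, hft⟩ := Submodule.mem_sup.1 h2
      rw [← hft, mul_add]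
      exact Submodule.add_mem_sup
        (Submodule.mul_mem_mul (Submodule.mem_span_singleton_self _) hf)
        (hAT (Submodule.mul_mem_mul ha ht)))
  -- the linear conditions
  have h1F : (1 : Submodule K U).FG := by
    rw [Submodule.one_eq_span]
    exact Submodule.fg_span_singleton 1
  obtain ⟨W, G, hWA, hGA, hG, hAWG, hWl⟩ := STP_W l A ((1 ⊔ B) * Y ⊔ (1 ⊔ B))
    (((h1F.sup hB).mul hYF).sup (h1F.sup hB))
  -- the right submodule `Z`
  have hpy : p * (a * y) ∈ A := hpA k (Submodule.mul_mem_mul hp hay)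
  let Z : Submodule K U := A ⊓ T.comap (LinearMap.mulLeft K (p * (a * y)))
  have hZA : Z * A ≤ Z := by
    rw [Submodule.mul_le]
    rintro s ⟨hs, hs'⟩ c hc
    refine ⟨hAA.le (Submodule.mul_mem_mul hs hc), ?_⟩
    have h3 : p * (a * y) * s * c ∈ T := hTA' (Submodule.mul_mem_mul hs' hc)
    rw [mul_assoc] at h3
    exact h3
  have hex : ∃ s ∈ W, s ∉ Z := by
    by_contra hcon
    push Not at hcon
    have hZ : Z = A := all_MOD K U A hC A Z G
      ⟨le_rfl, hAA.le, hAA.le⟩ hAA inf_le_left hZA hGA hG (hAWG.trans (sup_le_sup_right hcon G))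
    apply hpyb
    have h3 : b ∈ Z := by rw [hZ]; exact hb
    have h4 : p * (a * y) * b ∈ T := h3.2
    rw [mul_assoc] at h4
    exact h4
  obtain ⟨s, hsW, hsZ⟩ := hex
  have hsA := hWA hsW
  obtain ⟨B', h1, h2, h3, h4, h5, h6⟩ := FR_B A T Y B hAA.le hT hYA hYF hYY l hBA hB hBB hlB s hsA
    (fun b hb b' hb' => hWl s hsW b ((le_sup_left : (1 ⊔ B) * Y ≤ _) hb) b'
      ((le_sup_right : 1 ⊔ B ≤ (1 ⊔ B) * Y ⊔ (1 ⊔ B)) hb'))
  refine ⟨B', h1, h3, h4, h5, h6, ?_⟩
  intro hcon
  have h7 : p * (a * y * s) ∈ B' ^ (k + 1) := by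
    rw [pow_succ]
    exact Submodule.mul_mem_mul (pow_le_pow_left' h1 k hp) (h2 _ hyY)
  have h8 : p * (a * y) * s ∈ A := hAA.le (Submodule.mul_mem_mul hpy hsA)
  rw [← mul_assoc] at h7
  have h9 : p * (a * y) * s ∈ T := hcl _ h8 (fun c hc => hcon (Submodule.mul_mem_mul h7 hc))
  exact hsZ ⟨hsA, h9⟩

/-- Good subspaces. -/
def FR_good {K : Type u} {U : Type v} [Field K] [Ring U] [Algebra K U]
    (A T : Submodule K U) (l : U →ₗ[K] K) (k : ℕ) (B : Submodule K U) : Prop :=
  B ≤ A ∧ B.FG ∧ B * B ≤ B ⊔ T ∧ (∀ b ∈ B, l b = 0) ∧ ¬ B ^ k * A ≤ T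

/-- the closed case. -/
theorem FR_closed {K : Type u} {U : Type v} [Field K] [Ring U] [Algebra K U] (A : Submodule K U)
    (hC : Cex K U A) (T : Submodule K U) (hT : IsId A T) (hTA : T ≠ A)
    (hcl : ∀ x ∈ A, (∀ a ∈ A, x * a ∈ T) → x ∈ T) :
    ¬ A ≤ (A * span K (FinEl A T)) * A := by
  intro hgen
  have hA : A * A = A := all_PER K U A hC
  have hnle : ¬ A ≤ T := fun h => hTA (le_antisymm hT.1 h)
  obtain ⟨x, hxA, hxT⟩ : ∃ x ∈ A, x ∉ T := by
    by_contra hcon
    push Not at hcon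
    exact hnle hcon
  obtain ⟨l, hlx, hlT⟩ := Submodule.exists_le_ker_of_notMem hxT
  have hstep : ∀ (n : ℕ) (B : Submodule K U), FR_good A T l n B →
      ∃ B', FR_good A T l (n + 1) B' ∧ B ≤ B' := by
    rintro n B ⟨h1, h2, h3, h4, h5⟩
    obtain ⟨B', g1, g2, g3, g4, g5, g6⟩ := FR_step A hC T hT hcl hgen l B n h1 h2 h3 h4 h5
    exact ⟨B', ⟨g2, g3, g4, g5, g6⟩, g1⟩
  choose! g hg1 hg2 using hstep
  let b : ℕ → Submodule K U := fun n => Nat.rec ⊥ (fun n B => g n B) n
  have hb0 : FR_good A T l 0 (b 0) := by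
    refine ⟨bot_le, Submodule.fg_bot, ?_, ?_, ?_⟩
    · show (⊥ : Submodule K U) * ⊥ ≤ _
      rw [Submodule.bot_mul]
      exact bot_le
    · intro c hc
      have : c ∈ (⊥ : Submodule K U) := hc
      rw [Submodule.mem_bot] at this
      rw [this, map_zero]
    · rw [pow_zero, one_mul]
      exact hnle
  have hbg : ∀ n, FR_good A T l n (b n) := by
    intro n
    induction n with
    | zero => exact hb0
    | succ n ih => exact hg1 n (b n) ih
  have hbs : ∀ n, b n ≤ b (n + 1) := fun n => hg2 n (b n) (hbg n)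
  have hbm : Monotone b := monotone_nat_of_le_succ hbs
  let S : Submodule K U := (⨆ n, b n) ⊔ T
  have hSA : S ≤ A := sup_le (iSup_le fun n => (hbg n).1) hT.1
  have hbS : ∀ n, b n ≤ S := fun n => le_trans (le_iSup b n) le_sup_left
  have hTS : T ≤ S := le_sup_right
  have hbb : (⨆ n, b n) * (⨆ n, b n) ≤ S := by
    rw [Submodule.iSup_mul]
    refine iSup_le fun m => ?_
    rw [Submodule.mul_iSup]
    refine iSup_le fun n => ?_
    refine le_trans (mul_le_mul' (hbm (le_max_left m n)) (hbm (le_max_right m n))) ?_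
    exact le_trans (hbg (max m n)).2.2.1 (sup_le (hbS _) hTS)
  have hSS : S * S ≤ S := by
    show ((⨆ n, b n) ⊔ T) * S ≤ S
    rw [Submodule.sup_mul]
    refine sup_le ?_ ?_
    · show (⨆ n, b n) * ((⨆ n, b n) ⊔ T) ≤ S
      rw [Submodule.mul_sup]
      refine sup_le hbb ?_
      have h1 : (⨆ n, b n) ≤ A := iSup_le fun n => (hbg n).1
      exact le_trans (mul_le_mul' h1 le_rfl) (le_trans hT.2.1 hTS)
    · exact le_trans (mul_le_mul' le_rfl hSA) (le_trans hT.2.2 hTS)
  have hSl : S ≤ LinearMap.ker l := by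
    refine sup_le (iSup_le fun n => ?_) hlT
    intro c hc
    exact (hbg n).2.2.2.1 c hc
  have hSne : S ≠ A := by
    intro h
    apply hlx
    have : x ∈ S := by rw [h]; exact hxA
    exact hSl this
  obtain ⟨n, hn⟩ := hC.prop S hSA hSS hSne
  apply (hbg n).2.2.2.2
  have h1 : b n ^ n ≤ S ^ n := pow_le_pow_left' (hbS n) n
  rw [hn] at h1
  have h2 : b n ^ n = ⊥ := le_bot_iff.1 h1
  rw [h2, Submodule.bot_mul]
  exact bot_le

/-- the general case. -/
theorem FR_main {K : Type u} {U : Type v} [Field K] [Ring U] [Algebra K U] (A : Submodule K U)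
    (hC : Cex K U A) (T : Submodule K U) (hT : IsId A T) (hTA : T ≠ A) :
    ∃ J : Submodule K U, IsId A J ∧ J ≠ A ∧ FinEl A T ⊆ J := by
  have hAA : A * A = A := all_PER K U A hC
  obtain ⟨hTA1, hAT, hTA2⟩ := id hT
  -- the closure of `T`
  let T' : Submodule K U :=
    { carrier := {x | x ∈ A ∧ ∀ a ∈ A, x * a ∈ T}
      add_mem' := by
        rintro x y ⟨hx, hx'⟩ ⟨hy, hy'⟩
        refine ⟨A.add_mem hx hy, fun a ha => ?_⟩
        rw [add_mul]
        exact T.add_mem (hx' a ha) (hy' a ha)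
      zero_mem' := ⟨A.zero_mem, fun a _ => by rw [zero_mul]; exact T.zero_mem⟩
      smul_mem' := by
        rintro c x ⟨hx, hx'⟩
        refine ⟨A.smul_mem c hx, fun a ha => ?_⟩
        rw [smul_mul_assoc]
        exact T.smul_mem c (hx' a ha) }
  have hmem : ∀ x, x ∈ T' ↔ x ∈ A ∧ ∀ a ∈ A, x * a ∈ T := fun x => Iff.rfl
  have hTT' : T ≤ T' := by
    intro t ht
    exact (hmem t).2 ⟨hTA1 ht, fun a ha => hTA2 (Submodule.mul_mem_mul ht ha)⟩
  have hT' : IsId A T' := by
    refine ⟨fun x hx => ((hmem x).1 hx).1, ?_, ?_⟩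
    · rw [Submodule.mul_le]
      intro a ha x hx
      obtain ⟨hx1, hx2⟩ := (hmem x).1 hx
      refine (hmem _).2 ⟨hAA.le (Submodule.mul_mem_mul ha hx1), fun b hb => ?_⟩
      rw [mul_assoc]
      exact hAT (Submodule.mul_mem_mul ha (hx2 b hb))
    · rw [Submodule.mul_le]
      intro x hx a ha
      obtain ⟨hx1, hx2⟩ := (hmem x).1 hx
      refine (hmem _).2 ⟨hAA.le (Submodule.mul_mem_mul hx1 ha), fun b hb => ?_⟩
      rw [mul_assoc]
      exact hx2 _ (hAA.le (Submodule.mul_mem_mul ha hb))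
  have hT'A : T' ≠ A := by
    intro h
    apply hTA
    refine le_antisymm hTA1 ?_
    conv_lhs => rw [← hAA]
    rw [Submodule.mul_le]
    intro x hx a ha
    rw [← h] at hx
    exact ((hmem x).1 hx).2 a ha
  have hcl : ∀ x ∈ A, (∀ a ∈ A, x * a ∈ T') → x ∈ T' := by
    intro x hx h
    refine (hmem x).2 ⟨hx, fun a ha => ?_⟩
    have h1 : A ≤ T.comap (LinearMap.mulLeft K x) := by
      conv_lhs => rw [← hAA]
      rw [Submodule.mul_le]
      intro b hb c hc
      rw [Submodule.mem_comap, LinearMap.mulLeft_apply, ← mul_assoc]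
      exact ((hmem _).1 (h b hb)).2 c hc
    exact h1 ha
  have hnot := FR_closed A hC T' hT' hT'A hcl
  have hsub : FinEl A T ⊆ FinEl A T' := by
    rintro y ⟨hy, F, hF, h⟩
    exact ⟨hy, F, hF, fun a ha => (sup_le_sup_left hTT' F) (h a ha)⟩
  -- the ideal
  let V : Submodule K U := 1 ⊔ A
  have hV : V = 1 ⊔ A := rfl
  have hAV : A * V = A := by
    rw [hV, Submodule.mul_sup, mul_one, hAA, sup_idem]
  have hVA : V * A = A := by
    rw [hV, Submodule.sup_mul, one_mul, hAA, sup_idem]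
  have hSA : span K (FinEl A T') ≤ A := by
    rw [span_le]
    intro y hy
    exact hy.1
  have h1V : (1 : U) ∈ V := (le_sup_left : (1 : Submodule K U) ≤ 1 ⊔ A) (Submodule.one_le.1 le_rfl)
  have hAleV : A ≤ V := le_sup_right
  refine ⟨(V * span K (FinEl A T')) * V, ⟨?_, ?_, ?_⟩, ?_, ?_⟩
  · calc (V * span K (FinEl A T')) * V ≤ (V * A) * V := STP_l (STP_r hSA)
      _ = A := by rw [hVA, hAV]
  · calc A * ((V * span K (FinEl A T')) * V) = ((A * V) * span K (FinEl A T')) * V := by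
          simp only [mul_assoc]
      _ ≤ (V * span K (FinEl A T')) * V := by
          rw [hAV]
          exact STP_l (STP_l hAleV)
  · calc ((V * span K (FinEl A T')) * V) * A = (V * span K (FinEl A T')) * (V * A) := by
          simp only [mul_assoc]
      _ ≤ (V * span K (FinEl A T')) * V := by
          rw [hVA]
          exact STP_r hAleV
  · intro h
    apply hnot
    have h1 : A * A * A = A := by rw [hAA, hAA]
    calc A = A * ((V * span K (FinEl A T')) * V) * A := by rw [h, h1]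
      _ = ((A * V) * span K (FinEl A T')) * (V * A) := by simp only [mul_assoc]
      _ ≤ (A * span K (FinEl A T')) * A := by rw [hAV, hVA]
  · intro y hy
    have h2 := Submodule.mul_mem_mul (Submodule.mul_mem_mul h1V
      (Submodule.subset_span (R := K) (hsub hy))) h1V
    rw [one_mul, mul_one] at h2
    exact h2

end Pool.Agent.FR
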