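import Pool.Agent.helper8.FR.Core

/-!
# Project FR (MP_3938c6_al): final form
-/

set_option autoImplicit false

open Submodule

noncomputable section

namespace Pool.Agent.FR

open Pool.Agent.NN

universe u v w

theorem final (K : Type u) (A : Type v) [Field K] [NonUnitalRing A] [Module K A]
    [IsScalarTower K A A] [SMulCommClass K A A] (hdim : 1 < Module.rank K A)
    (hprop : PropNil K A)
    (A' : Type w) [NonUnitalRing A'] [Module K A'] [IsScalarTower K A' A']
    [SMulCommClass K A' A'] [Nontrivial A']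
    (π : A →ₙₐ[K] A') (hπ : Function.Surjective π)
    (hgen : ∀ J : Submodule K A', (∀ a : A', ∀ x ∈ J, a * x ∈ J ∧ x * a ∈ J) →
      (∀ y : A', (∃ F : Submodule K A', FiniteDimensional K F ∧ ∀ a : A', y * a * y ∈ F) → y ∈ J) →
      J = ⊤) :
    Nilp A := by
  by_contra hN
  obtain ⟨t1, t2, t3, t4, t5, t6⟩ := all_TRA K A
  have hC := t1 hdim hprop hN
  let πl : A →ₗ[K] A' := (π : A →ₗ[K] A')
  have hπl : ∀ x, πl x = π x := fun x => rfl
  let T₀ : Submodule K A := LinearMap.ker πl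
  have hT₀m : ∀ x, x ∈ T₀ ↔ π x = 0 := fun x => Iff.rfl
  have hT₀ : IdealOf K A T₀ := by
    intro a x hx
    have h1 : π x = 0 := hx
    constructor
    · rw [hT₀m, map_mul, h1, mul_zero]
    · rw [hT₀m, map_mul, h1, zero_mul]
  have hT : IsId (im K A ⊤) (im K A T₀) := (t2 T₀).2 hT₀
  have hTne : im K A T₀ ≠ im K A ⊤ := by
    intro h
    have h1 : (⊤ : Submodule K A) ≤ T₀ := (t5 _ _).1 h.ge
    obtain ⟨x, y, hxy⟩ := exists_pair_ne A'
    obtain ⟨a, rfl⟩ := hπ x
    obtain ⟨b, rfl⟩ := hπ y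
    apply hxy
    have ha : π a = 0 := h1 (Submodule.mem_top (x := a))
    have hb : π b = 0 := h1 (Submodule.mem_top (x := b))
    rw [ha, hb]
  obtain ⟨J, hJ, hJne, hJF⟩ := FR_main (im K A ⊤) hC (im K A T₀) hT hTne
  obtain ⟨J₀, rfl⟩ := t4 J hJ.1
  have hJ₀ : IdealOf K A J₀ := (t2 J₀).1 hJ
  have hmemc : ∀ (J : Submodule K A) (y : A), (y : Unitization K A) ∈ im K A J ↔ y ∈ J :=
    TRA_memc
  -- `T₀ ≤ J₀`
  have hTJ : T₀ ≤ J₀ := by
    intro x hx
    rw [← hmemc]
    apply hJF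
    refine ⟨(hmemc ⊤ x).2 Submodule.mem_top, ⊥, Submodule.fg_bot, ?_⟩
    intro a ha
    exact (le_sup_right : im K A T₀ ≤ ⊥ ⊔ im K A T₀)
      (hT.2.2 (Submodule.mul_mem_mul (hT.2.2 (Submodule.mul_mem_mul ((hmemc T₀ x).2 hx) ha))
        ((hmemc ⊤ x).2 Submodule.mem_top)))
  have hJ' : J₀.map πl = ⊤ := by
    apply hgen
    · rintro a _ ⟨x, hx, rfl⟩
      obtain ⟨b, rfl⟩ := hπ a
      constructor
      · refine ⟨b * x, (hJ₀ b x hx).1, ?_⟩
        rw [hπl, hπl, map_mul]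
      · refine ⟨x * b, (hJ₀ b x hx).2, ?_⟩
        rw [hπl, hπl, map_mul]
    · rintro y' ⟨F, hF, hyF⟩
      obtain ⟨y, rfl⟩ := hπ y'
      refine ⟨y, ?_, rfl⟩
      rw [SetLike.mem_coe, ← hmemc]
      apply hJF
      obtain ⟨s, hs⟩ := πl.exists_rightInverse_of_surjective (LinearMap.range_eq_top.2 hπ)
      have hs' : ∀ z, π (s z) = z := fun z => LinearMap.congr_fun hs z
      have hFG : F.FG := Module.Finite.iff_fg.1 hF
      refine ⟨(hmemc ⊤ y).2 Submodule.mem_top, im K A (F.map s), (hFG.map _).map _, ?_⟩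
      intro a ha
      obtain ⟨b, -, rfl⟩ := (TRA_mem _ _).1 ha
      rw [← Unitization.inr_mul, ← Unitization.inr_mul]
      have h1 : π (y * b * y) ∈ F := by
        rw [map_mul, map_mul]
        exact hyF (π b)
      have h2 : y * b * y = s (π (y * b * y)) + (y * b * y - s (π (y * b * y))) := by abel
      rw [h2, Unitization.inr_add]
      refine Submodule.add_mem_sup ((hmemc _ _).2 ⟨_, h1, rfl⟩) ((hmemc _ _).2 ?_)
      rw [hT₀m, map_sub, hs', sub_self]
  apply hJne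
  have : J₀ = ⊤ := by
    rw [eq_top_iff]
    intro x _
    have h1 : πl x ∈ J₀.map πl := by rw [hJ']; exact Submodule.mem_top
    obtain ⟨j, hj, hjx⟩ := h1
    have h2 : x - j ∈ T₀ := by
      rw [hT₀m, map_sub]
      have : π j = π x := hjx
      rw [this, sub_self]
    have h3 : x = j + (x - j) := by abel
    rw [h3]
    exact J₀.add_mem hj (hTJ h2)
  rw [this]

end Pool.Agent.FR
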